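import Pool.Agent.Helper8.TB.St

/-!
# Project TB (MP_26ac92_gt), module Bri: the projections have constant volume
-/

set_option autoImplicit false

namespace Pool.Agent.Helper58.TB

open Pool.Helper8.TB MeasureTheory

theorem hBri (hVol : StVol) (hSym : StSymF) (hChart : StChart) : StBri := by
  intro m τ ε q q1 p r hm hD e J u he hF μ hμ
  have hF' : Frame J (-u) := ⟨by rw [norm_neg]; exact hF.hu, fun y => by
    rw [inner_neg_right, hF.hJ y, neg_zero]⟩
  have h1 := hVol m τ ε q q1 p r hm hD e J u he hF μ hμ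
  have h2 := hVol m τ ε q q1 p r hm hD e J (-u) he hF' μ hμ
  have hneg : ∀ y : W m, nu J (-u) (-y) = -nu J u y := by
    intro y
    unfold nu
    rw [norm_neg, map_neg, smul_neg, neg_add]
  have hmp : MeasurePreserving (fun y : W m => -y) μ μ := Measure.measurePreserving_neg μ
  have hpre : (fun y : W m => -y) ⁻¹' Metric.ball 0 1 = Metric.ball 0 1 := by
    ext y
    simp
  have h3 : ∫⁻ y in Metric.ball (0 : W m) 1, ENNReal.ofReal (fd m q r (inner ℝ (nu J (-u) y) e)) ∂μ =
      ∫⁻ y in Metric.ball (0 : W m) 1, ENNReal.ofReal (fd m q r (-(inner ℝ (nu J u y) e))) ∂μ := by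
    have h := hmp.setLIntegral_comp_preimage_emb (MeasurableEquiv.neg (W m)).measurableEmbedding
      (fun y => ENNReal.ofReal (fd m q r (inner ℝ (nu J (-u) y) e))) (Metric.ball 0 1)
    rw [hpre] at h
    rw [← h]
    refine lintegral_congr fun y => ?_
    rw [hneg y, inner_neg_left]
  rw [h3] at h2
  have cq : Continuous q := continuous_iff_continuousAt.2 fun t => (hD.hq t).continuousAt
  have cfd : Continuous (fd m q r) := by
    unfold fd
    exact (cq.pow _).mul (cq.add ((continuous_const.sub (continuous_id.pow 2)).mul hD.cr))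
  have cnu : Continuous (fun y : W m => (inner ℝ (nu J u y) e : ℝ)) := by
    unfold nu
    refine Continuous.inner ?_ continuous_const
    exact J.continuous.add
      ((Real.continuous_sqrt.comp (continuous_const.sub (continuous_norm.pow 2))).smul
        continuous_const)
  have hm1 : Measurable (fun y : W m => ENNReal.ofReal (fd m q r (inner ℝ (nu J u y) e))) :=
    ENNReal.measurable_ofReal.comp (cfd.comp cnu).measurable
  have hpos : ∀ t : ℝ, t ^ 2 ≤ 1 → 0 ≤ fd m q r t := fun t ht =>
    mul_nonneg (pow_nonneg (hD.pos t).le _) (hD.cvx t ht).le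
  obtain ⟨-, -, -, -, hC, -⟩ := hChart m J u hF
  have h4 : μ (Jt J '' Bd q p e) + μ (Jt J '' Bd q p e) =
      μ (Metric.ball 0 1) + μ (Metric.ball 0 1) := by
    have hL : μ (Jt J '' Bd q p e) + μ (Jt J '' Bd q p e) =
        ∫⁻ y in Metric.ball (0 : W m) 1, ENNReal.ofReal 2 ∂μ := by
      conv_lhs => rw [h1]
      rw [← h1]
      nth_rw 1 [h1]
      rw [h2, ← lintegral_add_left hm1]
      refine setLIntegral_congr_fun Metric.isOpen_ball.measurableSet ?_
      intro y hy
      have hy1 : ‖y‖ < 1 := by simpa using hy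
      have hn : ‖nu J u y‖ = 1 := (hC y hy1).1
      have ht : (inner ℝ (nu J u y) e : ℝ) ^ 2 ≤ 1 := by
        have h5 := abs_real_inner_le_norm (nu J u y) e
        rw [hn, he, one_mul] at h5
        have h6 := abs_le.1 h5
        nlinarith [h6.1, h6.2]
      have ht' : (-(inner ℝ (nu J u y) e : ℝ)) ^ 2 ≤ 1 := by rw [neg_sq]; exact ht
      simp only
      rw [← ENNReal.ofReal_add (hpos _ ht) (hpos _ ht')]
      congr 1
      exact hSym m τ ε q q1 p r hm hD _
    rw [hL, lintegral_const, Measure.restrict_apply MeasurableSet.univ, Set.univ_inter,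
      ENNReal.ofReal_ofNat, two_mul]
  have h5 : (2 : ENNReal) * μ (Jt J '' Bd q p e) = 2 * μ (Metric.ball 0 1) := by
    rw [two_mul, two_mul, h4]
  exact (ENNReal.mul_right_inj (by norm_num) (by norm_num)).1 h5

end Pool.Agent.Helper58.TB
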